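import Pool.Agent.Q272.Sp.ModP
import Pool.Agent.Q272.Sp.Forms

/-!
Values of the quadratic-residue product `S_p` at the primitive twelfth roots of unity, for every
prime `p ≡ 19 (mod 24)`.
-/

namespace Pool.Agent.Results.MP_fa5f9d_nt.TwelfthRoots

open Complex Finset

/-- The polynomial `S_p(x) = ∏_{k=1}^{(p-1)/2} (x - e^{2πi k²/p})`. -/
noncomputable def Sp (p : ℕ) : Polynomial ℂ :=
  ∏ k ∈ Finset.Icc 1 ((p - 1) / 2),
    (Polynomial.X - Polynomial.C (Complex.exp (2 * Real.pi * Complex.I * (k : ℂ) ^ 2 / p)))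

theorem eval_Sp {p : ℕ} [Fact p.Prime] (hp2 : p ≠ 2) (z : ℂ) :
    (Sp p).eval z = Q272.Sp.S p 1 z := by
  classical
  have hprime := (Fact.out : p.Prime)
  have hodd : p % 2 = 1 := by
    rcases hprime.eq_two_or_odd with h | h
    · exact absurd h hp2
    · exact h
  unfold Sp Q272.Sp.S
  rw [Polynomial.eval_prod]
  have hinj : Set.InjOn (fun k : ℕ => ((k : ZMod p)) ^ 2) (Finset.Icc 1 ((p - 1) / 2) : Finset ℕ) := by
    intro a ha b hb hab
    rw [mem_coe, mem_Icc] at ha hb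
    simp only at hab
    have h1 : ((a : ZMod p) - b) * (a + b) = 0 := by linear_combination hab
    rcases mul_eq_zero.1 h1 with h2 | h2
    · have h3 : ((a : ZMod p)) = b := sub_eq_zero.1 h2
      rw [ZMod.natCast_eq_natCast_iff'] at h3
      rw [Nat.mod_eq_of_lt (by omega), Nat.mod_eq_of_lt (by omega)] at h3
      exact h3
    · exfalso
      have h3 : ((a + b : ℕ) : ZMod p) = 0 := by push_cast; exact h2
      rw [ZMod.natCast_eq_zero_iff] at h3
      have := Nat.le_of_dvd (by omega) h3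
      omega
  have himg : (Finset.Icc 1 ((p - 1) / 2)).image (fun k : ℕ => ((k : ZMod p)) ^ 2) =
      Q272.Sp.Q p 1 := by
    apply Finset.eq_of_subset_of_card_le
    · intro y hy
      rw [mem_image] at hy
      obtain ⟨k, hk, rfl⟩ := hy
      rw [mem_Icc] at hk
      rw [Q272.Sp.mem_Q]
      apply quadraticChar_sq_one'
      intro h0
      rw [ZMod.natCast_eq_zero_iff] at h0
      have := Nat.le_of_dvd (by omega) h0
      omega
    · rw [Finset.card_image_of_injOn hinj, (Q272.Sp.card_Q hp2).1, Nat.card_Icc]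
      omega
  rw [← himg, Finset.prod_image hinj]
  refine Finset.prod_congr rfl fun k _ => ?_
  rw [Polynomial.eval_sub, Polynomial.eval_X, Polynomial.eval_C]
  congr 1
  unfold Q272.Sp.E
  have h1 : ((k : ZMod p)) ^ 2 = (((k : ℤ) ^ 2 : ℤ) : ZMod p) := by push_cast; rfl
  rw [h1, ZMod.stdAddChar_coe]
  push_cast
  rfl

/-- For every prime `p ≡ 19 (mod 24)` and all integers `x`, `y` with `p = (4x)² + 3y²`, the four
evaluations of `S_p` at the primitive twelfth roots of unity. -/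
theorem result : ∀ p : ℕ, p.Prime → p % 24 = 19 → ∀ x y : ℤ, (p : ℤ) = (4 * x) ^ 2 + 3 * y ^ 2 →
    (Sp p).eval (exp (2 * Real.pi * I / 12)) =
      (-1) ^ ((p - 19) / 24 + x.natAbs) * (1 + I) * ((1 + (Real.sqrt 3 : ℂ)) / 2) ∧
    (Sp p).eval (exp (-(2 * Real.pi * I / 12))) =
      (-1) ^ ((p - 19) / 24 + x.natAbs) * (1 - I) * ((1 + (Real.sqrt 3 : ℂ)) / 2) ∧
    (Sp p).eval (exp (2 * Real.pi * I * 5 / 12)) =
      (-1) ^ ((p - 19) / 24 + x.natAbs) * (1 + I) * ((1 - (Real.sqrt 3 : ℂ)) / 2) ∧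
    (Sp p).eval (exp (-(2 * Real.pi * I * 5 / 12))) =
      (-1) ^ ((p - 19) / 24 + x.natAbs) * (1 - I) * ((1 - (Real.sqrt 3 : ℂ)) / 2) := by
  intro p hprime hp24 x y hxy
  have : Fact p.Prime := ⟨hprime⟩
  obtain ⟨m, hp⟩ : ∃ m, p = 24 * m + 19 := ⟨(p - 19) / 24, by omega⟩
  have hm : (p - 19) / 24 = m := by omega
  have hp2 : p ≠ 2 := by omega
  rw [hm]
  simp only [eval_Sp hp2]
  set t : ℂ := exp (2 * Real.pi * I / 24) with ht
  have hpow : ∀ k : ℕ, t ^ k = exp (2 * Real.pi * I * k / 24) := by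
    intro k
    rw [ht, ← Complex.exp_nat_mul]
    congr 1
    ring
  have t6 : t ^ 6 = I := by
    rw [hpow, show (2 * Real.pi * I * ((6 : ℕ) : ℂ) / 24 : ℂ) = Real.pi / 2 * I by push_cast; ring]
    exact Complex.exp_pi_div_two_mul_I
  set r : ℂ := (Real.sqrt 3 : ℂ) with hr
  have hr2 : r ^ 2 = 3 := by
    rw [hr, ← Complex.ofReal_pow, Real.sq_sqrt (by norm_num)]
    norm_num
  have t2 : 2 * t ^ 2 = r + I := by
    rw [hpow, show (2 * Real.pi * I * ((2 : ℕ) : ℂ) / 24 : ℂ) = ((Real.pi / 6 : ℝ) : ℂ) * I by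
      push_cast; ring, Complex.exp_mul_I, ← Complex.ofReal_cos, ← Complex.ofReal_sin,
      Real.cos_pi_div_six, Real.sin_pi_div_six, hr]
    push_cast
    ring
  have ht8 : t ^ 8 - t ^ 4 + 1 = 0 := by
    have h4 : t ^ 4 = (1 + r * I) / 2 := by
      have : (2 * t ^ 2) ^ 2 = (r + I) ^ 2 := by rw [t2]
      linear_combination (1/4) * this + (1/4) * hr2 + (1/4) * Complex.I_sq
    have h8 : t ^ 8 = (t ^ 4) ^ 2 := by ring
    rw [h8, h4]
    linear_combination (1/4) * Complex.I_sq * r ^ 2 - (1/4) * hr2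
  obtain ⟨s0, hs0, hchi⟩ := Q272.Sp.arith hp hxy
  have hv := Q272.Sp.value_sign hp ht8 hs0
  obtain ⟨_, v2, v3, v4⟩ := Q272.Sp.values hp ht8
  rw [hchi] at hv
  set σ : ℂ := (-1) ^ (m + x.natAbs) with hσ
  have hσ2 : σ ^ 2 = 1 := by
    rw [hσ, ← pow_mul, mul_comm, pow_mul]
    norm_num
  have hS : Q272.Sp.S p 1 (t ^ 2) = σ * (1 + I) * ((1 + r) / 2) := by
    have h1 : 2 * Q272.Sp.S p 1 (t ^ 2) = σ * ((1 + t ^ 6) * (1 + 2 * t ^ 2 - t ^ 6)) := by
      rw [hv, hσ, pow_add]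
      push_cast
      ring
    rw [t6, t2] at h1
    linear_combination (1/2) * h1
  have hne : Q272.Sp.S p 1 (t ^ 2) ≠ 0 := by
    intro h0
    rw [h0, zero_mul] at v3
    norm_num at v3
  have e2 : exp (2 * Real.pi * I / 12) = t ^ 2 := by
    rw [hpow]; congr 1; push_cast; ring
  have e22 : exp (-(2 * Real.pi * I / 12)) = t ^ 22 := by
    rw [hpow, show (2 * Real.pi * I * ((22 : ℕ) : ℂ) / 24 : ℂ) =
      -(2 * Real.pi * I / 12) + 2 * Real.pi * I by push_cast; ring, Complex.exp_add,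
      Complex.exp_two_pi_mul_I, mul_one]
  have e10 : exp (2 * Real.pi * I * 5 / 12) = t ^ 10 := by
    rw [hpow]; congr 1; push_cast; ring
  have e14 : exp (-(2 * Real.pi * I * 5 / 12)) = t ^ 14 := by
    rw [hpow, show (2 * Real.pi * I * ((14 : ℕ) : ℂ) / 24 : ℂ) =
      -(2 * Real.pi * I * 5 / 12) + 2 * Real.pi * I by push_cast; ring, Complex.exp_add,
      Complex.exp_two_pi_mul_I, mul_one]
  rw [e2, e22, e10, e14]
  refine ⟨hS, ?_, ?_, ?_⟩
  · rw [v4, hS, t6]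
    linear_combination (-(σ * ((1 + r) / 2))) * Complex.I_sq
  · apply mul_left_cancel₀ hne
    rw [v2, hS, t6]
    linear_combination I * hσ2 + (1/4) * σ ^ 2 * (1 + I) ^ 2 * hr2 +
      (1/2) * σ ^ 2 * Complex.I_sq
  · apply mul_left_cancel₀ hne
    rw [v3, hS]
    linear_combination hσ2 + (1/4) * σ ^ 2 * (1 - I ^ 2) * hr2 - (1/2) * σ ^ 2 * Complex.I_sq

end Pool.Agent.Results.MP_fa5f9d_nt.TwelfthRoots
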